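import Mathlib

namespace Pool.Agent.H.MP_d4a354_an

open Finset Filter MeasureTheory Topology
open scoped ENNReal

variable {m : ℕ} (β : ℝ)

noncomputable def val (w : ℕ → Fin (m + 1)) (n : ℕ) : ℝ := ∑ i ∈ range n, (w i : ℝ) / β ^ (i + 1)

noncomputable def rem (w : ℕ → Fin (m + 1)) (n : ℕ) (x : ℝ) : ℝ := β ^ n * (x - val β w n)

def II (m : ℕ) : Set ℝ := Set.Icc 0 (m / (β - 1))

def glue {D : Type} (n : ℕ) (a v : ℕ → D) : ℕ → D := fun i => if i < n then a i else v (i - n)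

theorem glue_lt {D : Type} {n i : ℕ} (a v : ℕ → D) (h : i < n) : glue n a v i = a i := if_pos h

theorem glue_add {D : Type} (n i : ℕ) (a v : ℕ → D) : glue n a v (n + i) = v i := by
  simp [glue]

variable {β}

theorem rem_zero (w : ℕ → Fin (m + 1)) (x) : rem β w 0 x = x := by simp [rem, val]

theorem rem_succ (hβ : 1 < β) (w : ℕ → Fin (m + 1)) (n x) :
    rem β w (n + 1) x = β * rem β w n x - w n := by
  have : β ≠ 0 := by linarith
  simp only [rem, val, sum_range_succ]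
  field_simp
  ring

theorem val_congr {w w' : ℕ → Fin (m + 1)} {n} (h : ∀ i < n, w i = w' i) :
    val β w n = val β w' n :=
  sum_congr rfl fun i hi => by rw [h i (mem_range.1 hi)]

theorem rem_congr {w w' : ℕ → Fin (m + 1)} {n} (h : ∀ i < n, w i = w' i) (x) :
    rem β w n x = rem β w' n x := by rw [rem, rem, val_congr h]

theorem rem_add (hβ : 1 < β) {w v : ℕ → Fin (m + 1)} {n l} (h : ∀ i < l, w (n + i) = v i) (x) :
    rem β w (n + l) x = rem β v l (rem β w n x) := by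
  induction l with
  | zero => rw [rem_zero, add_zero]
  | succ l ih =>
    rw [← add_assoc, rem_succ hβ, rem_succ hβ, ih fun i hi => h i (by omega), h l (by omega)]

theorem rem_glue (hβ : 1 < β) (a v : ℕ → Fin (m + 1)) (n l x) :
    rem β (glue n a v) (n + l) x = rem β v l (rem β a n x) := by
  rw [rem_add hβ fun i _ => glue_add n i a v, rem_congr fun i hi => glue_lt a v hi]

theorem rem_back (hβ : 1 < β) {w : ℕ → Fin (m + 1)} {n x} (h : rem β w (n + 1) x ∈ II β m) :
    rem β w n x ∈ II β m := by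
  rw [rem_succ hβ] at h
  have h1 : (w n : ℝ) ≤ m := by exact_mod_cast Nat.le_of_lt_succ (w n).2
  have h2 : (0 : ℝ) ≤ w n := Nat.cast_nonneg _
  have h3 : 0 < β - 1 := by linarith
  obtain ⟨h4, h5⟩ := h
  rw [le_div_iff₀ h3] at h5
  constructor
  · by_contra h6
    nlinarith
  · rw [le_div_iff₀ h3]
    by_contra h6
    nlinarith

theorem rem_le (hβ : 1 < β) {w : ℕ → Fin (m + 1)} {n k x} (hk : k ≤ n)
    (h : rem β w n x ∈ II β m) : rem β w k x ∈ II β m := by
  induction n, hk using Nat.le_induction with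
  | base => exact h
  | succ n _ ih => exact ih (rem_back hβ h)

theorem hasSum_iff (hβ : 1 < β) (w : ℕ → Fin (m + 1)) (x : ℝ) :
    HasSum (fun i => (w i : ℝ) / β ^ (i + 1)) x ↔ ∀ n, rem β w n x ∈ II β m := by
  have h0 : 0 < β := by linarith
  have h3 : 0 < β - 1 := by linarith
  constructor
  · intro h n
    have h1 := (hasSum_nat_add_iff' n).2 h
    have h2 : HasSum (fun i => (w (i + n) : ℝ) / β ^ (i + 1)) (rem β w n x) := by
      have e : (fun i => (w (i + n) : ℝ) / β ^ (i + 1)) =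
          fun i => β ^ n * ((w (i + n) : ℝ) / β ^ (i + n + 1)) := by
        funext i
        field_simp
        ring
      rw [e]
      exact h1.mul_left (β ^ n)
    have h4 : HasSum (fun i => (m : ℝ) / β ^ (i + 1)) (m / (β - 1)) := by
      have := (hasSum_geometric_of_lt_one (r := β⁻¹) (by positivity)
        (inv_lt_one_of_one_lt₀ hβ)).mul_left (m / β)
      have e : (fun i => (m : ℝ) / β ^ (i + 1)) = fun i => m / β * β⁻¹ ^ i := by
        funext i
        rw [inv_pow]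
        field_simp
        ring
      have e2 : (m : ℝ) / (β - 1) = m / β * (1 - β⁻¹)⁻¹ := by field_simp
      rw [e, e2]
      exact this
    refine ⟨h2.nonneg fun i => by positivity, hasSum_le (fun i => ?_) h2 h4⟩
    gcongr
    exact_mod_cast Nat.le_of_lt_succ (w _).2
  · intro h
    rw [hasSum_iff_tendsto_nat_of_nonneg fun i => by positivity]
    have h1 : Tendsto (fun n => x - rem β w n x / β ^ n) atTop (𝓝 (x - 0)) := by
      refine tendsto_const_nhds.sub (squeeze_zero (fun n => div_nonneg (h n).1 (by positivity))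
        (fun n => div_le_div_of_nonneg_right (h n).2 (by positivity)) ?_)
      exact tendsto_const_nhds.div_atTop (tendsto_pow_atTop_atTop_of_one_lt hβ)
    rw [sub_zero] at h1
    refine h1.congr fun n => ?_
    rw [rem, val]
    field_simp
    ring

theorem val_mem (hβ : 1 < β) (w : ℕ → Fin (m + 1)) (n) : val β w n ∈ II β m := by
  have := rem_le hβ (w := w) (x := val β w n) (Nat.zero_le n) (by
    rw [rem, sub_self, mul_zero]
    exact ⟨le_rfl, div_nonneg (Nat.cast_nonneg _) (by linarith)⟩)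
  rwa [rem_zero] at this

theorem vol_pre (hβ : 1 < β) (w : ℕ → Fin (m + 1)) (n) (Z : Set ℝ) :
    volume {y | rem β w n y ∈ Z} = ENNReal.ofReal (β ^ n)⁻¹ * volume Z := by
  have h0 : 0 < β ^ n := by positivity
  have : {y | rem β w n y ∈ Z} = (fun y => y + -val β w n) ⁻¹' ((β ^ n * ·) ⁻¹' Z) := by
    ext y
    simp [rem, sub_eq_add_neg]
  rw [this, measure_preimage_add_right, Real.volume_preimage_mul_left h0.ne',
    abs_of_pos (inv_pos.2 h0)]

variable (β) in
def Cov (W : Set (ℕ → Fin (m + 1))) (L : ℕ) : Set ℝ := {y | ∃ w ∈ W, rem β w L y ∈ II β m}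

theorem val_fin (L : ℕ) : (Set.range fun w : ℕ → Fin (m + 1) => val β w L).Finite := by
  refine (Set.finite_range fun u : Fin L → Fin (m + 1) =>
    val β (fun i => if h : i < L then u ⟨i, h⟩ else 0) L).subset ?_
  rintro _ ⟨w, rfl⟩
  exact ⟨fun i => w i, val_congr fun i hi => by simp [hi]⟩

theorem sel (hβ : 1 < β) (hm : 0 < m) (W : Set (ℕ → Fin (m + 1))) (L : ℕ) :
    ∃ V : Finset (ℕ → Fin (m + 1)), ↑V ⊆ W ∧ (V.card : ℝ) ≤ 4 * β ^ L ∧ Cov β W L ⊆ Cov β (↑V : Set (ℕ → Fin (m + 1))) L := by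
  classical
  rcases W.eq_empty_or_nonempty with rfl | ⟨w0, hw0⟩
  · exact ⟨∅, by simp, by simp; positivity, by simp⟩
  have h0 : 0 < β ^ L := by positivity
  have h1 : (0 : ℝ) < m / (β - 1) := div_pos (by exact_mod_cast hm) (by linarith)
  set l : ℝ := m / (β - 1) with hl
  let c : (ℕ → Fin (m + 1)) → ℕ := fun w => ⌊val β w L * β ^ L / l⌋₊
  have key : ∀ i : ℕ, ∃ u ∈ W, ∃ u' ∈ W, ∀ w ∈ W, c w = i →
      c u = i ∧ c u' = i ∧ val β u L ≤ val β w L ∧ val β w L ≤ val β u' L := by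
    intro i
    by_cases h : ∃ w ∈ W, c w = i
    · obtain ⟨w1, hw1⟩ := h
      have hf : ((fun w => val β w L) '' {w | w ∈ W ∧ c w = i}).Finite :=
        (val_fin L).subset (Set.image_subset_range _ _)
      obtain ⟨_, ⟨u, hu, rfl⟩, h2⟩ := Set.exists_min_image _ id hf ⟨_, w1, hw1, rfl⟩
      obtain ⟨_, ⟨u', hu', rfl⟩, h3⟩ := Set.exists_max_image _ id hf ⟨_, w1, hw1, rfl⟩
      exact ⟨u, hu.1, u', hu'.1, fun w hw hc =>
        ⟨hu.2, hu'.2, h2 _ ⟨w, ⟨hw, hc⟩, rfl⟩, h3 _ ⟨w, ⟨hw, hc⟩, rfl⟩⟩⟩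
    · exact ⟨w0, hw0, w0, hw0, fun w hw hc => (h ⟨w, hw, hc⟩).elim⟩
  choose u hu u' hu' hk using key
  refine ⟨(range (⌊β ^ L⌋₊ + 1)).image u ∪ (range (⌊β ^ L⌋₊ + 1)).image u', ?_, ?_, ?_⟩
  · intro w hw
    simp only [coe_union, coe_image, Set.mem_union, Set.mem_image] at hw
    rcases hw with ⟨i, -, rfl⟩ | ⟨i, -, rfl⟩
    exacts [hu i, hu' i]
  · have a1 := card_union_le ((range (⌊β ^ L⌋₊ + 1)).image u) ((range (⌊β ^ L⌋₊ + 1)).image u')
    have a2 := card_image_le (s := range (⌊β ^ L⌋₊ + 1)) (f := u)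
    have a3 := card_image_le (s := range (⌊β ^ L⌋₊ + 1)) (f := u')
    rw [card_range] at a2 a3
    have a4 := Nat.floor_le h0.le
    have a5 := one_le_pow₀ (n := L) hβ.le
    have : (((range (⌊β ^ L⌋₊ + 1)).image u ∪ (range (⌊β ^ L⌋₊ + 1)).image u').card : ℝ) ≤
        2 * (⌊β ^ L⌋₊ + 1) := by exact_mod_cast (by omega)
    linarith
  · rintro y ⟨w, hw, hy⟩
    obtain ⟨b1, b2, b3, b4⟩ := hk (c w) w hw rfl
    have hc : c w ∈ range (⌊β ^ L⌋₊ + 1) := by
      rw [mem_range, Nat.lt_succ_iff]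
      refine Nat.floor_le_floor ?_
      rw [div_le_iff₀ h1]
      have := (val_mem hβ w L).2
      nlinarith
    have nn : ∀ w : ℕ → Fin (m + 1), 0 ≤ val β w L * β ^ L / l :=
      fun w => div_nonneg (mul_nonneg (val_mem hβ w L).1 h0.le) h1.le
    have c1 := Nat.floor_le (nn (u (c w)))
    have c2 := Nat.lt_floor_add_one (val β (u' (c w)) L * β ^ L / l)
    change ((c (u (c w)) : ℕ) : ℝ) ≤ _ at c1
    change _ < ((c (u' (c w)) : ℕ) : ℝ) + 1 at c2
    rw [b1, le_div_iff₀ h1] at c1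
    rw [b2, div_lt_iff₀ h1] at c2
    obtain ⟨y1, y2⟩ := hy
    rw [rem] at y1 y2
    by_cases h : y ≤ val β (u' (c w)) L
    · refine ⟨u (c w), by simp only [coe_union, coe_image]; exact Or.inl ⟨_, hc, rfl⟩, ?_, ?_⟩
      · rw [rem]; nlinarith
      · rw [rem]; nlinarith
    · refine ⟨u' (c w), by simp only [coe_union, coe_image]; exact Or.inr ⟨_, hc, rfl⟩, ?_, ?_⟩
      · rw [rem]; nlinarith
      · rw [rem]; nlinarith

theorem cov_meas (hβ : 1 < β) (hm : 0 < m) (W : Set (ℕ → Fin (m + 1))) (L : ℕ) :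
    MeasurableSet (Cov β W L) := by
  obtain ⟨V, h1, -, h2⟩ := sel hβ hm W L
  have : Cov β W L = ⋃ w ∈ V, rem β w L ⁻¹' II β m := by
    ext y
    simp only [Set.mem_iUnion, Set.mem_preimage, exists_prop]
    exact ⟨fun h => h2 h, fun ⟨w, hw, h⟩ => ⟨w, h1 hw, h⟩⟩
  rw [this]
  refine V.measurableSet_biUnion fun w _ => measurableSet_Icc.preimage ?_
  unfold rem
  fun_prop

theorem digit (hβ : 1 < β) (hm : β < m + 1) {y} (hy : y ∈ II β m) :
    ∃ d : Fin (m + 1), β * y - d ∈ II β m := by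
  have h3 : 0 < β - 1 := by linarith
  obtain ⟨h1, h2⟩ := hy
  have h4 : 0 ≤ β * y := by positivity
  have h5 : (1 : ℝ) ≤ m / (β - 1) := by rw [le_div_iff₀ h3]; linarith
  by_cases h : ⌊β * y⌋₊ ≤ m
  · refine ⟨⟨_, Nat.lt_succ_of_le h⟩, sub_nonneg.2 (Nat.floor_le h4), ?_⟩
    have := Nat.lt_floor_add_one (β * y)
    simp only
    linarith
  · refine ⟨Fin.last m, ?_, ?_⟩
    · have := Nat.floor_le h4
      have : (m : ℝ) ≤ ⌊β * y⌋₊ := by exact_mod_cast (by omega)
      simp only [Fin.val_last]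
      linarith
    · rw [le_div_iff₀ h3] at h2 ⊢
      simp only [Fin.val_last]
      nlinarith

theorem word (hβ : 1 < β) (hm : β < m + 1) {y} (hy : y ∈ II β m) (n : ℕ) :
    ∃ w : ℕ → Fin (m + 1), rem β w n y ∈ II β m := by
  induction n with
  | zero => exact ⟨fun _ => 0, by rwa [rem_zero]⟩
  | succ n ih =>
    obtain ⟨w, hw⟩ := ih
    obtain ⟨d, hd⟩ := digit hβ hm hw
    refine ⟨glue n w fun _ => d, ?_⟩
    rwa [rem_glue hβ, rem_succ hβ, rem_zero]

variable (β) in
def Uq (m : ℕ) : Set ℝ := {y | y ∈ II β m ∧ ¬ ∃ (R : ℕ) (u u' : ℕ → Fin (m + 1)), (∃ i < R, u i ≠ u' i) ∧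
  rem β u R y ∈ II β m ∧ rem β u' R y ∈ II β m}

theorem uq_null (hβ : 1 < β) (hm : β < m + 1) (hm' : 0 < m) : volume (Uq β m) = 0 := by
  have h3 : 0 < β - 1 := by linarith
  have h0 : 0 < β := by linarith
  set l : ℝ := m / (β - 1) with hl
  have h5 : 1 < l := by rw [hl, lt_div_iff₀ h3]; linarith
  by_contra hne
  obtain ⟨x, hx, hd⟩ := Measure.exists_mem_of_measure_ne_zero_of_ae hne
    (Besicovitch.ae_tendsto_measure_inter_div (volume : Measure ℝ) (Uq β m))
  have hr : Tendsto (fun n : ℕ => l / β ^ n) atTop (𝓝[>] 0) :=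
    tendsto_nhdsWithin_iff.2 ⟨tendsto_const_nhds.div_atTop (tendsto_pow_atTop_atTop_of_one_lt hβ),
      Eventually.of_forall fun n => by simp only [Set.mem_Ioi]; positivity⟩
  have hk : 0 < (l - 1) / (2 * β * l) := by
    have : 0 < l - 1 := by linarith
    positivity
  have := le_of_tendsto' (hd.comp hr) (b := ENNReal.ofReal (1 - (l - 1) / (2 * β * l))) fun n => ?_
  · rw [ENNReal.one_le_ofReal] at this
    linarith
  obtain ⟨w, hw⟩ := word hβ hm hx.1 n
  have hp : 0 < β ^ n := by positivity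
  have hG : {y | rem β w n y ∈ Set.Icc (1 / β) (l / β)} ⊆ Metric.closedBall x (l / β ^ n) := by
    rintro y ⟨y1, y2⟩
    obtain ⟨w1, w2⟩ := hw
    have a1 : 0 ≤ 1 / β := by positivity
    have a2 : l / β ≤ l := div_le_self (by linarith) hβ.le
    rw [Metric.mem_closedBall, Real.dist_eq, le_div_iff₀ hp, ← abs_of_pos hp, ← abs_mul, abs_le]
    rw [rem] at y1 y2 w1 w2
    constructor <;> nlinarith
  have hU : Uq β m ∩ Metric.closedBall x (l / β ^ n) ⊆
      Metric.closedBall x (l / β ^ n) \ {y | rem β w n y ∈ Set.Icc (1 / β) (l / β)} := by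
    rintro y ⟨y1, y2⟩
    refine ⟨y2, fun ⟨y3, y4⟩ => y1.2 ⟨n + 1, glue n w fun _ => 0, glue n w fun _ => ⟨1, by omega⟩,
      ⟨n, by omega, by simp [glue, Fin.ext_iff]⟩, ?_, ?_⟩⟩
    all_goals
      rw [rem_glue hβ, rem_succ hβ, rem_zero]
      rw [div_le_iff₀ h0] at y3
      rw [le_div_iff₀ h0] at y4
      constructor
      · simp; nlinarith
      · simp; nlinarith
  have hmeas : MeasurableSet {y | rem β w n y ∈ Set.Icc (1 / β) (l / β)} := by
    refine measurableSet_Icc.preimage (f := rem β w n) ?_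
    unfold rem
    fun_prop
  have hv := vol_pre hβ w n (Set.Icc (1 / β) (l / β))
  have hle : 1 / β ≤ l / β := by gcongr
  rw [Real.volume_Icc, ← ENNReal.ofReal_mul (by positivity)] at hv
  refine ENNReal.div_le_of_le_mul ((measure_mono hU).trans ?_)
  rw [measure_sdiff hG hmeas.nullMeasurableSet (by rw [hv]; simp), hv, Real.volume_closedBall,
    ← ENNReal.ofReal_sub _ (mul_nonneg (by positivity) (by linarith)),
    ← ENNReal.ofReal_mul' (by positivity)]
  refine ENNReal.ofReal_le_ofReal (le_of_eq ?_)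
  field_simp

end Pool.Agent.H.MP_d4a354_an
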