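import Pool.Agent.H.MP_d4a354_an.A

namespace Pool.Agent.H.MP_d4a354_an

open Finset Filter MeasureTheory Topology
open scoped ENNReal

variable {m : ℕ} {β : ℝ} {ι : Type} (g : ι → Fin (m + 1) → ℝ) (a : ι → ℝ)

def S (τ : ι) (w : ℕ → Fin (m + 1)) (n : ℕ) : ℝ := ∑ i ∈ range n, g τ (w i)

def Ev (f : ℕ → ℝ) (b : ℝ) : Prop :=
  ∀ η > 0, (∀ᶠ n : ℕ in atTop, f n ≤ (b + η) * n) ∧ ∃ᶠ n : ℕ in atTop, (b - η) * n ≤ f n

def Good (w : ℕ → Fin (m + 1)) : Prop :=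
  ∀ η > 0, ∃ C : ℕ, ∀ τ, (∀ n : ℕ, S g τ w n ≤ (a τ + η) * n + C) ∧
    ∀ M : ℕ, ∃ n ≥ M, (a τ - η) * n - C ≤ S g τ w n

def Gd (η : ℝ) (C M L : ℕ) (w : ℕ → Fin (m + 1)) : Prop :=
  ∀ τ, (∀ n ≤ L, S g τ w n ≤ (a τ + η) * n + C) ∧
    ∃ n, M ≤ n ∧ n ≤ L ∧ (a τ - η) * n - C ≤ S g τ w n

variable {g a}

theorem S_add {τ} {w v : ℕ → Fin (m + 1)} {n l} (h : ∀ i < l, w (n + i) = v i) :
    S g τ w (n + l) = S g τ w n + S g τ v l := by
  rw [S, sum_range_add]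
  congr 1
  exact sum_congr rfl fun i hi => by rw [h i (mem_range.1 hi)]

theorem S_abs (hg : ∀ τ d, |g τ d| ≤ 1) (τ w n) : |S g τ w n| ≤ n := by
  refine (abs_sum_le_sum_abs _ _).trans ?_
  simpa using sum_le_card_nsmul (range n) _ 1 fun i _ => hg τ (w i)

theorem good_of_ev [Finite ι] (hg : ∀ τ d, |g τ d| ≤ 1) (ha : ∀ τ, |a τ| ≤ 1) {w}
    (h : ∀ τ, Ev (S g τ w) (a τ)) : Good g a w := by
  intro η hη
  obtain ⟨N, hN⟩ := eventually_atTop.1 (eventually_all.2 fun τ => (h τ η hη).1)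
  refine ⟨2 * N, fun τ => ⟨fun n => ?_, fun M => ?_⟩⟩
  · have h0 : (0 : ℝ) ≤ n := Nat.cast_nonneg _
    rcases le_total N n with h1 | h1
    · have := hN n h1 τ
      have : (0 : ℝ) ≤ ((2 * N : ℕ) : ℝ) := Nat.cast_nonneg _
      linarith
    · have h2 := (abs_le.1 (S_abs hg τ w n)).2
      have h3 := (abs_le.1 (ha τ)).1
      have : (n : ℝ) ≤ N := by exact_mod_cast h1
      push_cast
      nlinarith
  · obtain ⟨n, h1, h2⟩ := frequently_atTop.1 (h τ η hη).2 M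
    have : (0 : ℝ) ≤ ((2 * N : ℕ) : ℝ) := Nat.cast_nonneg _
    exact ⟨n, h1, by linarith⟩

theorem good_glue (hg : ∀ τ d, |g τ d| ≤ 1) (ha : ∀ τ, |a τ| ≤ 1) {w} (h : Good g a w) (R u) :
    Good g a (glue R u w) := by
  intro η hη
  obtain ⟨C, hC⟩ := h η hη
  have hR : (0 : ℝ) ≤ R := Nat.cast_nonneg _
  have hC0 : (0 : ℝ) ≤ C := Nat.cast_nonneg _
  refine ⟨C + 2 * R, fun τ => ⟨fun n => ?_, fun M => ?_⟩⟩
  · have h3 := (abs_le.1 (ha τ)).1
    rcases le_total n R with h1 | h1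
    · have h2 := (abs_le.1 (S_abs hg τ (glue R u w) n)).2
      have : (n : ℝ) ≤ R := by exact_mod_cast h1
      have h0 : (0 : ℝ) ≤ n := Nat.cast_nonneg _
      push_cast
      nlinarith
    · obtain ⟨l, rfl⟩ := Nat.exists_eq_add_of_le h1
      rw [S_add fun i _ => glue_add R i u w]
      have h2 := (abs_le.1 (S_abs hg τ (glue R u w) R)).2
      have := (hC τ).1 l
      push_cast
      nlinarith
  · obtain ⟨n, h1, h2⟩ := (hC τ).2 M
    refine ⟨R + n, by omega, ?_⟩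
    rw [S_add fun i _ => glue_add R i u w]
    have h4 := (abs_le.1 (S_abs hg τ (glue R u w) R)).1
    have h3 := (abs_le.1 (ha τ)).2
    push_cast
    nlinarith

theorem Gd.mono {η C C' M L w} (h : Gd g a η C M L w) (hC : C ≤ C') : Gd g a η C' M L w := by
  have : (C : ℝ) ≤ C' := by exact_mod_cast hC
  intro τ
  obtain ⟨h1, n, h2, h3, h4⟩ := h τ
  exact ⟨fun n hn => by linarith [h1 n hn], n, h2, h3, by linarith⟩

theorem Good.gd [Finite ι] {w} (h : Good g a w) {η} (hη : 0 < η) :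
    ∃ C, ∀ M, ∀ᶠ L in atTop, Gd g a η C M L w := by
  obtain ⟨C, hC⟩ := h η hη
  refine ⟨C, fun M => eventually_all.2 fun τ => ?_⟩
  obtain ⟨n, h1, h2⟩ := (hC τ).2 M
  filter_upwards [eventually_ge_atTop n] with L hL
  exact ⟨fun n _ => (hC τ).1 n, n, h1, hL, h2⟩

variable (β g a) in
def E1 : Set ℝ := {y | ∃ w, Good g a w ∧ ∀ n, rem β w n y ∈ II β m}

variable (β g a) in
def E2 : Set ℝ := {y | ∃ w w', w ≠ w' ∧ Good g a w ∧ Good g a w' ∧
  (∀ n, rem β w n y ∈ II β m) ∧ ∀ n, rem β w' n y ∈ II β m}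

theorem exp_glue (hβ : 1 < β) {R} {u w : ℕ → Fin (m + 1)} {y}
    (h : ∀ n, rem β w n (rem β u R y) ∈ II β m) (n) :
    rem β (glue R u w) n y ∈ II β m :=
  rem_le hβ (Nat.le_add_left n R) (by rw [rem_glue hβ]; exact h n)

theorem e2_full (hβ : 1 < β) (hm : β < m + 1) (hm' : 0 < m) (hg : ∀ τ d, |g τ d| ≤ 1)
    (ha : ∀ τ, |a τ| ≤ 1) (h : volume (II β m \ E1 β g a) = 0) :
    volume (II β m \ E2 β g a) = 0 := by
  let tr : (R : ℕ) → (Fin R → Fin (m + 1)) → ℕ → Fin (m + 1) :=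
    fun R u i => if h : i < R then u ⟨i, h⟩ else 0
  have h1 : volume (Uq β m ∪ ⋃ (R : ℕ) (u : Fin R → Fin (m + 1)),
      {y | rem β (tr R u) R y ∈ II β m \ E1 β g a}) = 0 := by
    refine measure_union_null (uq_null hβ hm hm') (measure_iUnion_null fun R =>
      measure_iUnion_null fun u => ?_)
    rw [vol_pre hβ, h, mul_zero]
  refine measure_mono_null (fun y hy => ?_) h1
  by_contra hn
  simp only [Set.mem_union, Set.mem_iUnion, not_or, not_exists, Set.mem_setOf_eq] at hn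
  obtain ⟨h2, h3⟩ := hn
  have h4 : ∀ R (u : ℕ → Fin (m + 1)), rem β u R y ∈ II β m → rem β u R y ∈ E1 β g a := by
    intro R u hu
    have := h3 R fun i => u i
    rw [rem_congr (w' := u) fun i hi => by simp [tr, hi]] at this
    by_contra h5
    exact this ⟨hu, h5⟩
  simp only [Uq, Set.mem_setOf_eq, not_and, not_not] at h2
  obtain ⟨R, u, u', ⟨i, hi, hne⟩, hu, hu'⟩ := h2 hy.1
  obtain ⟨w, g1, e1⟩ := h4 R u hu
  obtain ⟨w', g2, e2⟩ := h4 R u' hu'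
  refine hy.2 ⟨glue R u w, glue R u' w', fun h => hne ?_, good_glue hg ha g1 _ _,
    good_glue hg ha g2 _ _, exp_glue hβ e1, exp_glue hβ e2⟩
  have := congrFun h i
  rwa [glue_lt _ _ hi, glue_lt _ _ hi] at this

variable (β g a) in
def Two (η : ℝ) (C M L : ℕ) : Set ℝ := ⋃ (i : Fin C) (d : Fin (m + 1)),
  Cov β {w | Gd g a η C M L w ∧ w i = d} L ∩ Cov β {w | Gd g a η C M L w ∧ w i ≠ d} L

theorem two_meas (hβ : 1 < β) (hm' : 0 < m) (η C M L) : MeasurableSet (Two β g a η C M L) :=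
  .iUnion fun _ => .iUnion fun _ => (cov_meas hβ hm' _ _).inter (cov_meas hβ hm' _ _)

theorem two_mono {η C C' M L} (hC : C ≤ C') : Two β g a η C M L ⊆ Two β g a η C' M L := by
  intro y hy
  simp only [Two, Set.mem_iUnion] at hy ⊢
  obtain ⟨i, d, ⟨w, ⟨h1, h2⟩, h3⟩, ⟨w', ⟨h4, h5⟩, h6⟩⟩ := hy
  exact ⟨⟨i, by omega⟩, d, ⟨w, ⟨h1.mono hC, h2⟩, h3⟩, ⟨w', ⟨h4.mono hC, h5⟩, h6⟩⟩

theorem shrink {s : ℕ → Set ℝ} (hs : ∀ n, MeasurableSet (s n)) (hmo : Monotone s) {δ : ℝ≥0∞}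
    (h : volume (II β m \ ⋃ n, s n) < δ) : ∃ n, volume (II β m \ s n) < δ := by
  have := tendsto_measure_iInter_atTop (μ := volume) (s := fun n => II β m \ s n)
    (fun n => (measurableSet_Icc.diff (hs n)).nullMeasurableSet)
    (fun i j hij => Set.sdiff_subset_sdiff_right (hmo hij))
    ⟨0, ((measure_mono Set.sdiff_subset).trans_lt measure_Icc_lt_top).ne⟩
  rw [← Set.sdiff_iUnion] at this
  exact (this.eventually (gt_mem_nhds h)).exists

theorem stage1 [Finite ι] (hβ : 1 < β) (hm' : 0 < m) (h : volume (II β m \ E2 β g a) = 0) {η : ℝ}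
    (hη : 0 < η) {δ : ℝ≥0∞} (hδ : δ ≠ 0) :
    ∃ C, ∀ M, ∃ L ≥ M, volume (II β m \ Two β g a η C M L) < δ := by
  let Y : ℕ → ℕ → ℕ → Set ℝ := fun C M L0 => ⋂ L ≥ L0, Two β g a η C M L
  have hY : ∀ C M L0, MeasurableSet (Y C M L0) :=
    fun C M L0 => .iInter fun L => .iInter fun _ => two_meas hβ hm' _ _ _ _
  obtain ⟨C, hC⟩ := shrink (β := β) (m := m) (s := fun C => ⋂ M, ⋃ L0, Y C M L0) (δ := δ)
    (fun C => .iInter fun M => .iUnion fun L0 => hY C M L0)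
    (fun C C' hC => Set.iInter_mono fun M => Set.iUnion_mono fun L0 =>
      Set.iInter₂_mono fun L _ => two_mono hC) (by
      refine lt_of_le_of_lt (measure_mono (Set.sdiff_subset_sdiff_right ?_)) (h.trans_lt hδ.bot_lt)
      rintro y ⟨w, w', hne, g1, g2, e1, e2⟩
      obtain ⟨i, hi⟩ := Function.ne_iff.1 hne
      obtain ⟨C1, h1⟩ := g1.gd hη
      obtain ⟨C2, h2⟩ := g2.gd hη
      simp only [Set.mem_iUnion, Set.mem_iInter, Y]
      refine ⟨C1 + C2 + i + 1, fun M => eventually_atTop.1 ?_⟩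
      filter_upwards [h1 M, h2 M] with L h3 h4
      simp only [Two, Set.mem_iUnion]
      exact ⟨⟨i, by omega⟩, w i, ⟨w, ⟨h3.mono (by omega), rfl⟩, e1 L⟩,
        ⟨w', ⟨h4.mono (by omega), hi.symm⟩, e2 L⟩⟩)
  refine ⟨C, fun M => ?_⟩
  obtain ⟨L0, hL⟩ := shrink (β := β) (m := m) (s := Y C M) (δ := δ) (hY C M)
    (fun L L' h => Set.biInter_subset_biInter_left fun x hx => le_trans h hx)
    (lt_of_le_of_lt (measure_mono (Set.sdiff_subset_sdiff_right (Set.iInter_subset _ M))) hC)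
  refine ⟨max L0 M, le_max_right _ _, lt_of_le_of_lt (measure_mono
    (Set.sdiff_subset_sdiff_right ?_)) hL⟩
  exact Set.biInter_subset_of_mem (le_max_left L0 M)

theorem stage2 (hβ : 1 < β) (hm' : 0 < m) (η C M L) :
    ∃ V : Finset (ℕ → Fin (m + 1)), (∀ v ∈ V, Gd g a η C M L v) ∧
      (∀ Z : Set ℝ, volume (⋃ v ∈ V, {y | rem β v L y ∈ Z}) ≤
        ((8 * C * (m + 1) + 1 : ℕ) : ℝ≥0∞) * volume Z) ∧
      ∀ y, ∃ c : Bool → ℕ → Fin (m + 1), y ∈ Two β g a η C M L →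
        (∀ b, c b ∈ V ∧ rem β (c b) L y ∈ II β m) ∧ ∃ i < C, c true i ≠ c false i := by
  classical
  choose V1 a1 b1 c1 using fun (i : Fin C) (d : Fin (m + 1)) =>
    sel hβ hm' {w | Gd g a η C M L w ∧ w i = d} L
  choose V2 a2 b2 c2 using fun (i : Fin C) (d : Fin (m + 1)) =>
    sel hβ hm' {w | Gd g a η C M L w ∧ w i ≠ d} L
  refine ⟨univ.biUnion fun p : Fin C × Fin (m + 1) => V1 p.1 p.2 ∪ V2 p.1 p.2, ?_, ?_, ?_⟩
  · intro v hv
    simp only [mem_biUnion, mem_univ, mem_union, true_and] at hv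
    obtain ⟨p, h | h⟩ := hv
    exacts [(a1 _ _ h).1, (a2 _ _ h).1]
  · intro Z
    refine (measure_biUnion_finset_le _ _).trans ?_
    simp only [vol_pre hβ, sum_const, nsmul_eq_mul, ← mul_assoc]
    gcongr
    have hp : 0 < β ^ L := by positivity
    rw [← ENNReal.ofReal_natCast, ← ENNReal.ofReal_mul (Nat.cast_nonneg _),
      ← ENNReal.ofReal_natCast]
    refine ENNReal.ofReal_le_ofReal ?_
    rw [← div_eq_mul_inv, div_le_iff₀ hp]
    have h1 : ((univ.biUnion fun p : Fin C × Fin (m + 1) => V1 p.1 p.2 ∪ V2 p.1 p.2).card : ℝ) ≤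
        ∑ p : Fin C × Fin (m + 1), (8 * β ^ L) := by
      refine le_trans (Nat.cast_le.2 card_biUnion_le) ?_
      rw [Nat.cast_sum]
      refine sum_le_sum fun p _ => ?_
      have : ((V1 p.1 p.2 ∪ V2 p.1 p.2).card : ℝ) ≤ (V1 p.1 p.2).card + (V2 p.1 p.2).card := by
        exact_mod_cast card_union_le _ _
      linarith [b1 p.1 p.2, b2 p.1 p.2]
    simp only [sum_const, card_univ, Fintype.card_prod, Fintype.card_fin, nsmul_eq_mul] at h1
    push_cast at h1 ⊢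
    nlinarith
  · intro y
    by_cases hy : y ∈ Two β g a η C M L
    · simp only [Two, Set.mem_iUnion] at hy
      obtain ⟨i, d, h1, h2⟩ := hy
      obtain ⟨w, h3, h4⟩ := c1 i d h1
      obtain ⟨w', h5, h6⟩ := c2 i d h2
      refine ⟨fun b => if b then w else w', fun _ => ⟨fun b => ?_, i, i.2, ?_⟩⟩
      · cases b
        · exact ⟨mem_biUnion.2 ⟨(i, d), mem_univ _, mem_union_right _ h5⟩, h6⟩
        · exact ⟨mem_biUnion.2 ⟨(i, d), mem_univ _, mem_union_left _ h3⟩, h4⟩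
      · simp only [if_true, Bool.false_eq_true, if_false, (a1 i d h3).2]
        exact (a2 i d h5).2.symm
    · exact ⟨fun _ _ => 0, fun h => (hy h).elim⟩

end Pool.Agent.H.MP_d4a354_an
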