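import Pool.Agent.H.MP_d4a354_an.B

namespace Pool.Agent.H.MP_d4a354_an

open Finset Filter MeasureTheory Topology
open scoped ENNReal

theorem ev_blocks {f : ℕ → ℝ} {b : ℝ} {F : ℕ → ℕ → ℝ} {C M L P : ℕ → ℕ} (hb : |b| ≤ 1)
    (hf : ∀ n, |f n| ≤ n) (hP : ∀ j, P (j + 1) = P j + L j)
    (hM : ∀ j, M j = (j + 1) * (P j + C j + C (j + 1) + 1)) (hL : ∀ j, M j ≤ L j)
    (hF : ∀ j, ∀ n ≤ L j, f (P j + n) = f (P j) + F j n)
    (h1 : ∀ j, ∀ n ≤ L j, F j n ≤ (b + 1 / (j + 1)) * n + C j)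
    (h2 : ∀ j, ∃ n, M j ≤ n ∧ n ≤ L j ∧ (b - 1 / (j + 1)) * n - C j ≤ F j n) : Ev f b := by
  intro η hη
  obtain ⟨J, hJ⟩ := exists_nat_one_div_lt (show 0 < η / 3 by positivity)
  have hb1 := (abs_le.1 hb).1
  have hb2 := (abs_le.1 hb).2
  have hM1 : ∀ j, j + 1 ≤ M j := fun j => by rw [hM]; nlinarith [Nat.zero_le (P j + C j + C (j + 1))]
  have hM2 : ∀ j : ℕ, (1 / (j + 1) : ℝ) * M j = P j + C j + C (j + 1) + 1 := by
    intro j
    rw [hM]
    push_cast
    field_simp
  have hη' : ∀ j ≥ J, (1 / (j + 1) : ℝ) ≤ η / 3 := by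
    intro j hj
    refine le_trans ?_ hJ.le
    have : (J : ℝ) ≤ j := by exact_mod_cast hj
    gcongr
  constructor
  · have key : ∀ n ≥ P (J + 1), ∃ j ≥ J, P (j + 1) ≤ n ∧ n ≤ P (j + 1 + 1) := by
      intro n hn
      induction n, hn using Nat.le_induction with
      | base => exact ⟨J, le_rfl, le_rfl, by rw [hP (J + 1)]; omega⟩
      | succ n _ ih =>
        obtain ⟨j, a1, a2, a3⟩ := ih
        rcases a3.eq_or_lt with h | h
        · refine ⟨j + 1, by omega, by omega, ?_⟩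
          have := hM1 (j + 1 + 1)
          have := hL (j + 1 + 1)
          rw [hP (j + 1 + 1)]
          omega
        · exact ⟨j, a1, by omega, h⟩
    filter_upwards [eventually_ge_atTop (P (J + 1))] with n hn
    obtain ⟨j, a1, a2, a3⟩ := key n hn
    obtain ⟨l, rfl⟩ := Nat.exists_eq_add_of_le a2
    have hl : l ≤ L (j + 1) := by rw [hP (j + 1)] at a3; omega
    have b1 := h1 (j + 1) l hl
    have b2 := h1 j (L j) le_rfl
    have b3 := (abs_le.1 (hf (P j))).2
    have b4 := hM2 j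
    have b5 := hη' j a1
    have b6 : (1 / (((j + 1 : ℕ) : ℝ) + 1)) ≤ 1 / (j + 1) := by
      push_cast
      gcongr
      linarith
    have b7 : (M j : ℝ) ≤ L j := by exact_mod_cast hL j
    have b8 : (0 : ℝ) < 1 / (j + 1) := by positivity
    rw [hF (j + 1) l hl, hP j, hF j (L j) le_rfl]
    push_cast at b6 b1 ⊢
    generalize (1 / ((j : ℝ) + 1)) = e at *
    generalize (1 / ((j : ℝ) + 1 + 1)) = e' at *
    have c1 : (0 : ℝ) ≤ l := Nat.cast_nonneg _
    have c2 : (0 : ℝ) ≤ P j := Nat.cast_nonneg _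
    have c3 : (0 : ℝ) ≤ C j := Nat.cast_nonneg _
    have c4 : (0 : ℝ) ≤ C (j + 1) := Nat.cast_nonneg _
    have c5 : (0 : ℝ) ≤ L j := Nat.cast_nonneg _
    have d1 := mul_le_mul_of_nonneg_right b6 c1
    have d2 := mul_le_mul_of_nonneg_left b7 b8.le
    have d3 := mul_le_mul_of_nonneg_right b5 c1
    have d4 := mul_le_mul_of_nonneg_right b5 c5
    have d5 := mul_nonneg hη.le c2
    have d6 := mul_nonneg hη.le c1
    have d7 := mul_le_mul_of_nonneg_right hb1 c2
    nlinarith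
  · rw [frequently_atTop]
    intro N
    obtain ⟨n, a1, a2, a3⟩ := h2 (max J N)
    refine ⟨P (max J N) + n, ?_, ?_⟩
    · have := hM1 (max J N)
      have := le_max_right J N
      omega
    · have b5 := hη' _ (le_max_left J N)
      generalize max J N = j at *
      have b3 := (abs_le.1 (hf (P j))).1
      have b4 := hM2 j
      have b7 : (M j : ℝ) ≤ n := by exact_mod_cast a1
      have b8 : (0 : ℝ) < 1 / (j + 1) := by positivity
      rw [hF j n a2]
      push_cast
      generalize (1 / ((j : ℝ) + 1)) = e at *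
      have c1 : (0 : ℝ) ≤ n := Nat.cast_nonneg _
      have c2 : (0 : ℝ) ≤ P j := Nat.cast_nonneg _
      have c3 : (0 : ℝ) ≤ C j := Nat.cast_nonneg _
      have c4 : (0 : ℝ) ≤ C (j + 1) := Nat.cast_nonneg _
      have d2 := mul_le_mul_of_nonneg_left b7 b8.le
      have d3 := mul_le_mul_of_nonneg_right b5 c1
      have d5 := mul_nonneg hη.le c2
      have d7 := mul_le_mul_of_nonneg_right hb2 c2
      nlinarith

variable {m : ℕ} {β : ℝ} {ι : Type} {g : ι → Fin (m + 1) → ℝ} {a : ι → ℝ}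

theorem params [Finite ι] (hβ : 1 < β) (hm' : 0 < m) (h : volume (II β m \ E2 β g a) = 0)
    {θ : ℝ≥0∞} (hθ : θ ≠ 0) : ∃ q C M L P : ℕ → ℕ, q 0 = 1 ∧
      (∀ j, q (j + 1) = q j * (8 * C j * (m + 1) + 1)) ∧ P 0 = 0 ∧ (∀ j, P (j + 1) = P j + L j) ∧
      (∀ j, M j = (j + 1) * (P j + C j + C (j + 1) + 1)) ∧ (∀ j, M j ≤ L j) ∧
      ∀ j, (q j : ℝ≥0∞) * volume (II β m \ Two β g a (1 / (j + 1)) (C j) (M j) (L j)) ≤
        θ * 2⁻¹ ^ j := by
  choose Cf Lf h1 h2 using fun j k : ℕ => stage1 hβ hm' h (η := 1 / (j + 1)) (by positivity)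
    (δ := θ * 2⁻¹ ^ j / k) (ENNReal.div_ne_zero.2 ⟨mul_ne_zero hθ (by simp), by simp⟩)
  let q : ℕ → ℕ := fun j => Nat.rec 1 (fun j p => p * (8 * Cf j p * (m + 1) + 1)) j
  let C : ℕ → ℕ := fun j => Cf j (q j)
  let P : ℕ → ℕ := fun j =>
    Nat.rec 0 (fun j p => p + Lf j (q j) ((j + 1) * (p + C j + C (j + 1) + 1))) j
  refine ⟨q, C, fun j => (j + 1) * (P j + C j + C (j + 1) + 1),
    fun j => Lf j (q j) ((j + 1) * (P j + C j + C (j + 1) + 1)), P, rfl, fun j => rfl, rfl,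
    fun j => rfl, fun j => rfl, fun j => h1 _ _ _, fun j => ?_⟩
  exact (mul_le_mul_right (h2 j (q j) _).le _).trans ENNReal.mul_div_le

theorem main1 [Finite ι] (hβ : 1 < β) (hm' : 0 < m) (hg : ∀ τ d, |g τ d| ≤ 1)
    (ha : ∀ τ, |a τ| ≤ 1) (h : volume (II β m \ E2 β g a) = 0) {θ : ℝ≥0∞} (hθ : θ ≠ 0) :
    ∃ B : Set ℝ, volume B ≤ θ * 2 ∧ ∀ x ∈ II β m \ B, ∃ e : (ℕ → Bool) → ℕ → Fin (m + 1),
      Function.Injective e ∧ ∀ s, (∀ n, rem β (e s) n x ∈ II β m) ∧
        ∀ τ, Ev (S g τ (e s)) (a τ) := by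
  obtain ⟨q, C, M, L, P, q0, hq, P0, hP, hM, hL, hv⟩ := params hβ hm' h hθ
  choose V hV hZ ch hch using
    fun j : ℕ => stage2 (g := g) (a := a) hβ hm' (1 / (j + 1)) (C j) (M j) (L j)
  let F : ℕ → ℕ → Set ℝ := fun n => Nat.rec
    (fun j => II β m \ Two β g a (1 / (j + 1)) (C j) (M j) (L j))
    (fun _ G j => ⋃ v ∈ V j, {y | rem β v (L j) y ∈ G (j + 1)}) n
  have hF : ∀ n j, (q j : ℝ≥0∞) * volume (F n j) ≤ θ * 2⁻¹ ^ (j + n) := by
    intro n
    induction n with
    | zero => exact hv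
    | succ n ih =>
      intro j
      refine (mul_le_mul_right (hZ j _) _).trans ?_
      have := ih (j + 1)
      rw [hq, Nat.cast_mul, mul_assoc, add_assoc, add_comm 1 n] at this
      exact this
  refine ⟨⋃ n, F n 0, (measure_iUnion_le _).trans ?_, ?_⟩
  · refine (ENNReal.tsum_le_tsum fun n => show _ ≤ θ * 2⁻¹ ^ n by simpa [q0] using hF n 0).trans ?_
    rw [ENNReal.tsum_mul_left, ENNReal.tsum_geometric]
    simp
  intro x hx
  let A : (ℕ → Bool) → ℕ → ℕ → Fin (m + 1) := fun s j => Nat.rec (fun _ => 0)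
    (fun j u => glue (P j) u (ch j (rem β u (P j) x) (s j))) j
  have hA : ∀ s j, A s (j + 1) = glue (P j) (A s j) (ch j (rem β (A s j) (P j) x) (s j)) :=
    fun _ _ => rfl
  have inv : ∀ s j, rem β (A s j) (P j) x ∈ II β m ∧ ∀ n, rem β (A s j) (P j) x ∉ F n j := by
    intro s j
    induction j with
    | zero =>
      rw [P0, rem_zero]
      exact ⟨hx.1, by simpa using hx.2⟩
    | succ j ih =>
      have h2 : rem β (A s j) (P j) x ∈ Two β g a (1 / (j + 1)) (C j) (M j) (L j) := by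
        by_contra h3
        exact ih.2 0 ⟨ih.1, h3⟩
      obtain ⟨h3, h4⟩ := (hch j _ h2).1 (s j)
      rw [hA, hP, rem_glue hβ]
      exact ⟨h4, fun n hn => ih.2 (n + 1) (Set.mem_biUnion h3 hn)⟩
  have two : ∀ s (j : ℕ), rem β (A s j) (P j) x ∈ Two β g a (1 / (j + 1)) (C j) (M j) (L j) := by
    intro s j
    by_contra h3
    exact (inv s j).2 0 ⟨(inv s j).1, h3⟩
  have hM1 : ∀ j, C j + 1 ≤ L j := fun j => le_trans (by
    rw [hM]; nlinarith [Nat.zero_le (P j + C (j + 1)), Nat.zero_le (j * (P j + C j + C (j + 1) + 1))])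
    (hL j)
  have hPs : StrictMono P := strictMono_nat_of_lt_succ fun j => by
    have := hM1 j
    rw [hP]
    omega
  have stab : ∀ s j k i, j ≤ k → i < P j → A s k i = A s j i := by
    intro s j k i hk hi
    induction k, hk using Nat.le_induction with
    | base => rfl
    | succ k hk ih => rw [hA, glue_lt _ _ (hi.trans_le (hPs.monotone hk)), ih]
  have lim : ∀ s j i, i < P j → A s (i + 1) i = A s j i := by
    intro s j i hi
    rcases le_total j (i + 1) with h | h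
    · exact stab s j _ i h hi
    · exact (stab s _ j i h (hPs.le_apply.trans_lt' (Nat.lt_succ_self i))).symm
  have blk : ∀ s j, ∀ i < L j, A s (P j + i + 1) (P j + i) =
      ch j (rem β (A s j) (P j) x) (s j) i := by
    intro s j i hi
    rw [lim s (j + 1) _ (by rw [hP]; omega), hA, glue_add]
  refine ⟨fun s i => A s (i + 1) i, ?_, fun s => ⟨fun n => ?_, fun τ => ?_⟩⟩
  · intro s s' he
    have key : ∀ j, A s j = A s' j → s j = s' j := by
      intro j hj
      by_contra hne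
      obtain ⟨i, hi, h3⟩ := (hch j _ (two s j)).2
      have h4 := congrFun he (P j + i)
      have hi' : i < L j := by have := hM1 j; omega
      simp only at h4
      rw [blk s j i hi', blk s' j i hi', ← hj] at h4
      revert h4 hne
      cases s j <;> cases s' j <;> simp [h3, h3.symm]
    have key2 : ∀ j, A s j = A s' j := by
      intro j
      induction j with
      | zero => rfl
      | succ j ih => rw [hA, hA, key j ih, ih]
    exact funext fun j => key j (key2 j)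
  · refine rem_le hβ (n := P n) hPs.le_apply ?_
    rw [rem_congr fun i hi => lim s n i hi]
    exact (inv s n).1
  · refine ev_blocks (F := fun j => S g τ (ch j (rem β (A s j) (P j) x) (s j))) (ha τ)
      (S_abs hg τ _) hP hM hL (fun j n hn => S_add fun i hi => blk s j i (by omega))
      (fun j => (hV j _ ((hch j _ (two s j)).1 (s j)).1 τ).1)
      (fun j => (hV j _ ((hch j _ (two s j)).1 (s j)).1 τ).2)

theorem main2 [Finite ι] (hβ : 1 < β) (hm : β < m + 1) (hm' : 0 < m) (hg : ∀ τ d, |g τ d| ≤ 1)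
    (ha : ∀ τ, |a τ| ≤ 1) (h : volume (II β m \ E1 β g a) = 0) :
    ∀ᵐ x, x ∈ II β m → ∃ e : (ℕ → Bool) → ℕ → Fin (m + 1),
      Function.Injective e ∧ ∀ s, (∀ n, rem β (e s) n x ∈ II β m) ∧
        ∀ τ, Ev (S g τ (e s)) (a τ) := by
  rw [ae_iff]
  refine le_antisymm (ENNReal.le_of_forall_pos_le_add fun ε hε _ => ?_) zero_le
  obtain ⟨B, h1, h2⟩ := main1 hβ hm' hg ha (e2_full hβ hm hm' hg ha h) (θ := ε / 2)
    (ENNReal.div_ne_zero.2 ⟨by exact_mod_cast hε.ne', by simp⟩)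
  rw [ENNReal.div_mul_cancel (by simp) (by simp)] at h1
  rw [zero_add]
  refine (measure_mono fun x hx => ?_).trans h1
  by_contra h3
  exact hx fun h4 => h2 x ⟨h4, h3⟩

theorem limsup_iff {f : ℕ → ℝ} (hf : ∀ n, |f n| ≤ n) (b : ℝ) :
    limsup (fun n : ℕ => f n / n) atTop = b ↔ Ev f b := by
  have h1 : ∀ n : ℕ, |f n / n| ≤ 1 := fun n => by
    rw [abs_div, Nat.abs_cast]
    exact div_le_one_of_le₀ (hf n) (Nat.cast_nonneg _)
  have hb : IsBoundedUnder (· ≤ ·) atTop fun n : ℕ => f n / n :=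
    isBoundedUnder_of ⟨1, fun n => (abs_le.1 (h1 n)).2⟩
  have hc : IsCoboundedUnder (· ≤ ·) atTop fun n : ℕ => f n / n :=
    isCoboundedUnder_le_of_le atTop fun n => (abs_le.1 (h1 n)).1
  have hp : ∀ᶠ n : ℕ in atTop, (0 : ℝ) < n :=
    (eventually_gt_atTop 0).mono fun n hn => by exact_mod_cast hn
  constructor
  · rintro rfl η hη
    constructor
    · filter_upwards [eventually_lt_of_limsup_lt (lt_add_of_pos_right _ hη) hb, hp] with n h2 h3
      exact ((div_lt_iff₀ h3).1 h2).le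
    · refine ((frequently_lt_of_lt_limsup hc (sub_lt_self _ hη)).and_eventually hp).mono ?_
      exact fun n h2 => ((lt_div_iff₀ h2.2).1 h2.1).le
  · intro h
    refine le_antisymm (le_of_forall_pos_le_add fun η hη => limsup_le_of_le hc ?_)
      (le_of_forall_pos_le_add fun η hη => sub_le_iff_le_add.1 (le_limsup_of_frequently_le ?_ hb))
    · filter_upwards [(h η hη).1, hp] with n h2 h3
      exact (div_le_iff₀ h3).2 h2
    · exact ((h η hη).2.and_eventually hp).mono fun n h2 => (le_div_iff₀ h2.2).2 h2.1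

theorem liminf_iff {f : ℕ → ℝ} (hf : ∀ n, |f n| ≤ n) (b : ℝ) :
    liminf (fun n : ℕ => f n / n) atTop = b ↔ Ev (fun n => -f n) (-b) := by
  rw [← limsup_iff fun n => by simpa using hf n]
  have : limsup (fun n : ℕ => -f n / n) atTop = -liminf (fun n : ℕ => f n / n) atTop := by
    have h1 : ∀ n : ℕ, |f n / n| ≤ 1 := fun n => by
      rw [abs_div, Nat.abs_cast]
      exact div_le_one_of_le₀ (hf n) (Nat.cast_nonneg _)
    simp only [neg_div]
    exact (Antitone.map_liminf_of_continuousAt (f := fun x : ℝ => -x) (fun _ _ h => neg_le_neg h)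
      (fun n : ℕ => f n / n) continuous_neg.continuousAt
      (isCoboundedUnder_ge_of_le atTop fun n => (abs_le.1 (h1 n)).2)
      (isBoundedUnder_of ⟨-1, fun n => (abs_le.1 (h1 n)).1⟩)).symm
  rw [this, neg_inj]

end Pool.Agent.H.MP_d4a354_an
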